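import Mathlib

/-!
# Borel cohomology with coefficients in `𝔽₂`

For a discrete group `G` and a `G`-space `X`, the Borel cohomology `H^*(EG ×_G X; 𝔽₂)` is computed
by the `G`-invariant `𝔽₂`-valued cochains on the simplicial set `EG × Sing X`, where
`EG` is the simplicial set with `(EG)_n = G^{n+1}`.  The cup product is given by front and back
faces.
-/

set_option autoImplicit false

namespace Pool.Agent.Q171.ETC

/-- The `n`-simplices of `EG × Sing X`: an element of `G^{n+1}` and a singular `n`-simplex. -/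
abbrev Simp (G X : Type) [TopologicalSpace X] (n : ℕ) : Type :=
  (Fin (n + 1) → G) × C(stdSimplex ℝ (Fin (n + 1)), X)

/-- the affine map of standard simplices induced by a map of the vertices -/
noncomputable def aff {m n : ℕ} (α : Fin (m + 1) → Fin (n + 1)) :
    C(stdSimplex ℝ (Fin (m + 1)), stdSimplex ℝ (Fin (n + 1))) :=
  ⟨stdSimplex.map α, stdSimplex.continuous_map α⟩

section

variable {G X : Type} [TopologicalSpace X]

/-- the simplicial structure of `EG × Sing X` -/
noncomputable def pull {m n : ℕ} (s : Simp G X n) (α : Fin (m + 1) → Fin (n + 1)) :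
    Simp G X m :=
  (s.1 ∘ α, s.2.comp (aff α))

theorem aff_comp {l m n : ℕ} (α : Fin (m + 1) → Fin (n + 1)) (β : Fin (l + 1) → Fin (m + 1)) :
    (aff α).comp (aff β) = aff (α ∘ β) := by
  ext1 t
  exact stdSimplex.map_comp_apply β α t

theorem pull_pull {l m n : ℕ} (s : Simp G X n) (α : Fin (m + 1) → Fin (n + 1))
    (β : Fin (l + 1) → Fin (m + 1)) : pull (pull s α) β = pull s (α ∘ β) := by
  refine Prod.ext rfl ?_
  change (s.2.comp (aff α)).comp (aff β) = s.2.comp (aff (α ∘ β))
  rw [ContinuousMap.comp_assoc, aff_comp]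

/-- the map of vertices that misses `i` (for `i ≤ n`) -/
def face {m n : ℕ} (h : m + 1 = n) (i : ℕ) (j : Fin (m + 1)) : Fin (n + 1) :=
  ⟨if j.1 < i then j.1 else j.1 + 1, by split_ifs <;> omega⟩

/-- the inclusion of the first `p + 1` vertices -/
def front {p q n : ℕ} (h : p + q = n) (j : Fin (p + 1)) : Fin (n + 1) := ⟨j.1, by omega⟩

/-- the inclusion of the last `q + 1` vertices -/
def back {p q n : ℕ} (h : p + q = n) (j : Fin (q + 1)) : Fin (n + 1) := ⟨p + j.1, by omega⟩

/-- the coboundary of a cochain -/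
noncomputable def δ {m n : ℕ} (h : m + 1 = n) (b : Simp G X m → ZMod 2) :
    Simp G X n → ZMod 2 :=
  fun s => ∑ i ∈ Finset.range (n + 1), b (pull s (face h i))

/-- the cup product of cochains -/
noncomputable def cup {p q n : ℕ} (h : p + q = n) (a : Simp G X p → ZMod 2)
    (b : Simp G X q → ZMod 2) : Simp G X n → ZMod 2 :=
  fun s => a (pull s (front h)) * b (pull s (back h))

theorem δ_add {m n : ℕ} (h : m + 1 = n) (a b : Simp G X m → ZMod 2) :
    δ h (a + b) = δ h a + δ h b := by
  funext s
  simp only [δ, Pi.add_apply, Finset.sum_add_distrib]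

theorem δ_smul {m n : ℕ} (h : m + 1 = n) (c : ZMod 2) (a : Simp G X m → ZMod 2) :
    δ h (c • a) = c • δ h a := by
  funext s
  simp only [δ, Pi.smul_apply, Finset.smul_sum]

theorem δ_zero {m n : ℕ} (h : m + 1 = n) : δ h (0 : Simp G X m → ZMod 2) = 0 := by
  funext s
  simp [δ]

/-- the Leibniz rule (modulo 2) -/
theorem δ_cup {p q n p' q' n' : ℕ} (h : p + q = n) (hp : p + 1 = p') (hq : q + 1 = q')
    (hn : n + 1 = n') (h1 : p' + q = n') (h2 : p + q' = n') (a : Simp G X p → ZMod 2)
    (b : Simp G X q → ZMod 2) : δ hn (cup h a b) = cup h1 (δ hp a) b + cup h2 a (δ hq b) := by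
  subst hp hq hn h
  funext s
  simp only [δ, cup, Pi.add_apply, pull_pull]
  have hr : Finset.range (p + q + 1 + 1) = Finset.range ((p + 1) + (q + 1)) :=
    congrArg Finset.range (by ring)
  rw [hr, Finset.sum_range_add, Finset.sum_range_succ _ (p + 1), Finset.sum_range_succ' _ (q + 1), add_mul, mul_add,
    Finset.sum_mul, Finset.mul_sum]
  have e1 : ∀ i ∈ Finset.range (p + 1),
      a (pull s (face rfl i ∘ front rfl)) * b (pull s (face rfl i ∘ back rfl)) =
      a (pull s (front h1 ∘ face rfl i)) * b (pull s (back h1)) := by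
    intro i hi
    rw [Finset.mem_range] at hi
    have f1 : (face rfl i ∘ front rfl : Fin (p + 1) → Fin (p + q + 1 + 1)) =
        front h1 ∘ face rfl i := rfl
    have f2 : (face rfl i ∘ back rfl : Fin (q + 1) → Fin (p + q + 1 + 1)) = back h1 := by
      funext j
      apply Fin.ext
      dsimp only [face, back, Function.comp_apply]
      split_ifs <;> omega
    rw [f1, f2]
  have e2 : ∀ i ∈ Finset.range (q + 1),
      a (pull s (face rfl (p + 1 + i) ∘ front rfl)) *
        b (pull s (face rfl (p + 1 + i) ∘ back rfl)) =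
      a (pull s (front h2)) * b (pull s (back h2 ∘ face rfl (i + 1))) := by
    intro i hi
    rw [Finset.mem_range] at hi
    have f1 : (face rfl (p + 1 + i) ∘ front rfl : Fin (p + 1) → Fin (p + q + 1 + 1)) =
        front h2 := by
      funext j
      apply Fin.ext
      dsimp only [face, front, Function.comp_apply]
      split_ifs <;> omega
    have f2 : (face rfl (p + 1 + i) ∘ back rfl : Fin (q + 1) → Fin (p + q + 1 + 1)) =
        back h2 ∘ face rfl (i + 1) := by
      funext j
      apply Fin.ext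
      dsimp only [face, back, Function.comp_apply]
      split_ifs <;> omega
    rw [f1, f2]
  have e3 : a (pull s (front h1 ∘ face rfl (p + 1))) * b (pull s (back h1)) =
      a (pull s (front h2)) * b (pull s (back h2 ∘ face rfl 0)) := by
    have f1 : (front h1 ∘ face rfl (p + 1) : Fin (p + 1) → Fin (p + q + 1 + 1)) =
        front h2 := by
      funext j
      apply Fin.ext
      dsimp only [face, front, Function.comp_apply]
      split_ifs <;> omega
    have f2 : (back h2 ∘ face rfl 0 : Fin (q + 1) → Fin (p + q + 1 + 1)) = back h1 := by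
      funext j
      apply Fin.ext
      dsimp only [face, back, Function.comp_apply]
      split_ifs <;> omega
    rw [f1, f2]
  rw [Finset.sum_congr rfl e1, Finset.sum_congr rfl e2, e3]
  have := CharTwo.add_self_eq_zero (a (pull s (front h2)) * b (pull s (back h2 ∘ face rfl 0)))
  linear_combination -this

end

section Equivariant

variable {G X : Type} [TopologicalSpace X] [Group G] [MulAction G X] [ContinuousConstSMul G X]

/-- translation of a continuous map into a `G`-space -/
def trans {K : Type} [TopologicalSpace K] (g : G) (σ : C(K, X)) : C(K, X) :=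
  ⟨fun t => g • σ t, σ.continuous.const_smul g⟩

/-- the diagonal action of `G` on `EG × Sing X` -/
def act {n : ℕ} (g : G) (s : Simp G X n) : Simp G X n := (fun i => g * s.1 i, trans g s.2)

theorem act_pull {m n : ℕ} (g : G) (s : Simp G X n) (α : Fin (m + 1) → Fin (n + 1)) :
    act g (pull s α) = pull (act g s) α := rfl

/-- `G`-invariance of a cochain -/
def Inv {n : ℕ} (c : Simp G X n → ZMod 2) : Prop := ∀ (g : G) (s : Simp G X n), c (act g s) = c s

theorem Inv.δ {m n : ℕ} (h : m + 1 = n) {b : Simp G X m → ZMod 2} (hb : Inv b) :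
    Inv (ETC.δ h b) := by
  intro g s
  exact Finset.sum_congr rfl fun i _ => hb g (pull s (face h i))

theorem Inv.cup {p q n : ℕ} (h : p + q = n) {a : Simp G X p → ZMod 2}
    {b : Simp G X q → ZMod 2} (ha : Inv a) (hb : Inv b) : Inv (ETC.cup h a b) := by
  intro g s
  exact congrArg₂ (· * ·) (ha g (pull s (front h))) (hb g (pull s (back h)))

variable (G X)

/-- the invariant cocycles of degree `n` -/
def Z (n : ℕ) : Submodule (ZMod 2) (Simp G X n → ZMod 2) where
  carrier := {c | Inv c ∧ δ rfl c = 0}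
  zero_mem' := ⟨fun _ _ => rfl, δ_zero _⟩
  add_mem' := fun {a b} ha hb => ⟨fun g s => congrArg₂ (· + ·) (ha.1 g s) (hb.1 g s),
    ((δ_add rfl a b).trans (congrArg₂ (· + ·) ha.2 hb.2)).trans (add_zero 0)⟩
  smul_mem' := fun c a ha => ⟨fun g s => congrArg (c • ·) (ha.1 g s),
    ((δ_smul rfl c a).trans (congrArg (c • ·) ha.2)).trans (smul_zero c)⟩

/-- `c` is zero or the coboundary of an invariant cochain of degree `n - 1` -/
def IsCobound {n : ℕ} (c : Simp G X n → ZMod 2) : Prop :=
  c = 0 ∨ ∃ (m : ℕ) (h : m + 1 = n) (b : Simp G X m → ZMod 2), Inv b ∧ δ h b = c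

variable {G X}

theorem IsCobound.add {n : ℕ} {a b : Simp G X n → ZMod 2} (ha : IsCobound G X a)
    (hb : IsCobound G X b) : IsCobound G X (a + b) := by
  rcases ha with rfl | ⟨m, h, a', ha', rfl⟩
  · rwa [zero_add]
  · rcases hb with rfl | ⟨m', h', b', hb', rfl⟩
    · rw [add_zero]
      exact Or.inr ⟨m, h, a', ha', rfl⟩
    · obtain rfl : m = m' := by omega
      refine Or.inr ⟨m, h, a' + b', fun g s => congrArg₂ (· + ·) (ha' g s) (hb' g s), ?_⟩
      rw [δ_add]

theorem IsCobound.smul {n : ℕ} (c : ZMod 2) {a : Simp G X n → ZMod 2} (ha : IsCobound G X a) :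
    IsCobound G X (c • a) := by
  rcases ha with rfl | ⟨m, h, a', ha', rfl⟩
  · rw [smul_zero]
    exact Or.inl rfl
  · refine Or.inr ⟨m, h, c • a', fun g s => congrArg (c • ·) (ha' g s), ?_⟩
    rw [δ_smul]

variable (G X)

/-- the coboundaries, as a submodule of the cocycles -/
def B (n : ℕ) : Submodule (ZMod 2) (Z G X n) where
  carrier := {c | IsCobound G X c.1}
  zero_mem' := Or.inl rfl
  add_mem' := fun ha hb => ha.add hb
  smul_mem' := fun c _ ha => ha.smul c

/-- the Borel cohomology group `H^n(EG ×_G X; 𝔽₂)` -/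
def H (n : ℕ) : Type := Z G X n ⧸ B G X n

noncomputable instance (n : ℕ) : AddCommGroup (H G X n) := Submodule.Quotient.addCommGroup (B G X n)

variable {G X}

/-- the class of a cocycle -/
def cls {n : ℕ} (c : Z G X n) : H G X n := (Submodule.Quotient.mk c : Z G X n ⧸ B G X n)

theorem cls_eq {n : ℕ} {c d : Z G X n} : cls c = cls d ↔ IsCobound G X (c.1 - d.1) :=
  Submodule.Quotient.eq _

theorem cls_eq_zero {n : ℕ} {c : Z G X n} : cls c = 0 ↔ IsCobound G X c.1 :=
  Submodule.Quotient.mk_eq_zero _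

theorem cup_mem {p q n : ℕ} (h : p + q = n) (a : Z G X p) (b : Z G X q) :
    cup h a.1 b.1 ∈ Z G X n := by
  refine ⟨Inv.cup h a.2.1 b.2.1, ?_⟩
  rw [δ_cup h rfl rfl rfl (by omega) (by omega), a.2.2, b.2.2]
  funext s
  simp [cup]

/-- the product of cocycles -/
noncomputable def cupZ {p q n : ℕ} (h : p + q = n) (a : Z G X p) (b : Z G X q) : Z G X n :=
  ⟨cup h a.1 b.1, cup_mem h a b⟩

theorem cup_cobound_left {p q n : ℕ} (h : p + q = n) {a : Simp G X p → ZMod 2} (b : Z G X q)
    (ha : IsCobound G X a) : IsCobound G X (cup h a b.1) := by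
  rcases ha with rfl | ⟨m, hm, a', ha', rfl⟩
  · refine Or.inl ?_
    funext s
    simp [cup]
  · subst hm h
    refine Or.inr ⟨m + q, by omega, cup rfl a' b.1, Inv.cup rfl ha' b.2.1, ?_⟩
    rw [δ_cup rfl rfl rfl (by omega) rfl (by omega), b.2.2]
    funext s
    simp [cup]

theorem cup_cobound_right {p q n : ℕ} (h : p + q = n) (a : Z G X p) {b : Simp G X q → ZMod 2}
    (hb : IsCobound G X b) : IsCobound G X (cup h a.1 b) := by
  rcases hb with rfl | ⟨m, hm, b', hb', rfl⟩
  · refine Or.inl ?_
    funext s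
    simp [cup]
  · subst hm h
    refine Or.inr ⟨p + m, by omega, cup rfl a.1 b', Inv.cup rfl a.2.1 hb', ?_⟩
    rw [δ_cup rfl rfl rfl (by omega) (by omega) rfl, a.2.2]
    funext s
    simp [cup]

theorem cup_rel {p q n : ℕ} (h : p + q = n) (a : Z G X p) (b : Z G X q) (a' : Z G X p)
    (b' : Z G X q) (ha : (B G X p).quotientRel a a') (hb : (B G X q).quotientRel b b') :
    cls (cupZ h a b) = cls (cupZ h a' b') := by
  rw [Submodule.quotientRel_def] at ha hb
  rw [cls_eq]
  have e : (cupZ h a b).1 - (cupZ h a' b').1 =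
      cup h (a.1 - a'.1) b.1 + cup h a'.1 (b.1 - b'.1) := by
    funext s
    simp only [cupZ, cup, Pi.sub_apply, Pi.add_apply]
    ring
  rw [e]
  exact (cup_cobound_left h b ha).add (cup_cobound_right h a' hb)

/-- the cup product on Borel cohomology -/
noncomputable def cupH {p q n : ℕ} (h : p + q = n) (a : H G X p) (b : H G X q) : H G X n :=
  Quotient.liftOn₂' a b (fun a b => cls (cupZ h a b)) (cup_rel h)

theorem cupH_cls {p q n : ℕ} (h : p + q = n) (a : Z G X p) (b : Z G X q) :
    cupH h (cls a) (cls b) = cls (cupZ h a b) := rfl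

theorem one_mem : (fun _ => 1 : Simp G X 0 → ZMod 2) ∈ Z G X 0 := by
  refine ⟨fun _ _ => rfl, ?_⟩
  funext s
  simp only [δ, Finset.sum_const, Finset.card_range, Pi.zero_apply]
  rfl

variable (G X)

/-- the unit class in degree `0` -/
def oneH : H G X 0 := cls ⟨fun _ => 1, one_mem⟩

variable {G X}

/-- the product of a list of homogeneous classes -/
noncomputable def prodH : List (Σ n, H G X n) → Σ n, H G X n
  | [] => ⟨0, oneH G X⟩
  | a :: l => ⟨a.1 + (prodH l).1, cupH rfl a.2 (prodH l).2⟩

variable {Y : Type} [TopologicalSpace Y] [MulAction G Y] [ContinuousConstSMul G Y]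

/-- the map of simplices induced by a map of spaces -/
def mapS {X Y : Type} [TopologicalSpace X] [TopologicalSpace Y] (f : C(X, Y)) {n : ℕ}
    (s : Simp G X n) : Simp G Y n := (s.1, f.comp s.2)

omit [Group G] [MulAction G X] [ContinuousConstSMul G X] [MulAction G Y]
  [ContinuousConstSMul G Y] in
theorem pullback_δ (f : C(X, Y)) {m n : ℕ} (h : m + 1 = n) (b : Simp G Y m → ZMod 2) :
    (fun s => δ h b (mapS f s)) = δ h (fun s : Simp G X m => b (mapS f s)) := rfl

theorem mapS_act (f : C(X, Y)) (hf : ∀ (g : G) (x : X), f (g • x) = g • f x) {n : ℕ} (g : G)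
    (s : Simp G X n) : mapS f (act g s) = act g (mapS f s) := by
  refine Prod.ext rfl ?_
  ext t
  exact hf g (s.2 t)

theorem pullback_mem (f : C(X, Y)) (hf : ∀ (g : G) (x : X), f (g • x) = g • f x) {n : ℕ}
    (c : Z G Y n) : (fun s : Simp G X n => c.1 (mapS f s)) ∈ Z G X n := by
  refine ⟨fun g s => ?_, ?_⟩
  · change c.1 (mapS f (act g s)) = _
    rw [mapS_act f hf]
    exact c.2.1 g _
  · rw [← pullback_δ, c.2.2]
    rfl

/-- the pullback of cocycles along a `G`-map -/
def pullZ (f : C(X, Y)) (hf : ∀ (g : G) (x : X), f (g • x) = g • f x) {n : ℕ}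
    (c : Z G Y n) : Z G X n := ⟨fun s => c.1 (mapS f s), pullback_mem f hf c⟩

theorem pull_rel (f : C(X, Y)) (hf : ∀ (g : G) (x : X), f (g • x) = g • f x) {n : ℕ}
    (a b : Z G Y n) (h : (B G Y n).quotientRel a b) :
    cls (pullZ f hf a) = cls (pullZ f hf b) := by
  rw [Submodule.quotientRel_def] at h
  rw [cls_eq]
  rcases h with h | ⟨m, hm, b', hb', h⟩
  · refine Or.inl ?_
    funext s
    exact congrFun h (mapS f s)
  · refine Or.inr ⟨m, hm, fun s => b' (mapS f s), fun g s => ?_, ?_⟩
    · change b' (mapS f (act g s)) = _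
      rw [mapS_act f hf]
      exact hb' g _
    · rw [← pullback_δ, h]
      rfl

/-- the pullback `f^* : H^n_G(Y) → H^n_G(X)` along a `G`-map `f : X → Y` -/
def pullH (f : C(X, Y)) (hf : ∀ (g : G) (x : X), f (g • x) = g • f x) {n : ℕ}
    (a : H G Y n) : H G X n :=
  Quotient.liftOn' a (fun a => cls (pullZ f hf a)) (pull_rel f hf)

/-- the diagonal map -/
def diag (X : Type) [TopologicalSpace X] : C(X, X × X) := ⟨fun x => (x, x), by fun_prop⟩

omit [ContinuousConstSMul G X] in
theorem diag_equivariant (g : G) (x : X) : diag X (g • x) = g • diag X x := rfl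

variable (G X)

/-- `nil I ≥ k`, where `I` is the kernel of `Δ^* : H^*_G(X × X) → H^*_G(X)`: there are `k`
homogeneous elements of `I` with nonzero product. -/
def NilGE (k : ℕ) : Prop :=
  ∃ l : List (Σ n, H G (X × X) n), l.length = k ∧
    (∀ a ∈ l, pullH (diag X) (diag_equivariant (G := G)) a.2 = 0) ∧ (prodH l).2 ≠ 0

/-- the nilpotency `nil I` of the ideal `I = ker (Δ^* : H^*_G(X × X) → H^*_G(X))` -/
noncomputable def nilI : ℕ∞ := sSup {k : ℕ∞ | ∃ n : ℕ, k = n ∧ NilGE G X n}

variable {G X}

theorem le_nilI {k : ℕ} (h : NilGE G X k) : (k : ℕ∞) ≤ nilI G X := le_sSup ⟨k, rfl, h⟩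

end Equivariant

end Pool.Agent.Q171.ETC
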