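import Pool.Agent.Q171.ETC.Borel

/-!
# The class of an equivariant square root

For a space `Y` with an action of `{1, -1}` and an equivariant nowhere zero map `c : Y → ℂ`
(complex conjugation on `ℂ`), the equivariant double cover `w² = c` has a characteristic class in
`H^1_G(Y; 𝔽₂)`.
-/

set_option autoImplicit false

namespace Pool.Agent.Q171.ETC

open Complex

/-- `{1, -1}` acts on `ℂ` by complex conjugation -/
noncomputable def cj (g : ℤˣ) (z : ℂ) : ℂ := if g = 1 then z else (starRingEnd ℂ) z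

theorem cj_one (z : ℂ) : cj 1 z = z := if_pos rfl

theorem cj_neg_one (z : ℂ) : cj (-1) z = (starRingEnd ℂ) z := if_neg (by decide)

theorem cj_mul (g h : ℤˣ) (z : ℂ) : cj (g * h) z = cj g (cj h z) := by
  rcases Int.units_eq_one_or g with rfl | rfl <;> rcases Int.units_eq_one_or h with rfl | rfl
  · simp [cj_one]
  · simp [cj_one]
  · simp [cj_one]
  · simp [cj_one, cj_neg_one]

theorem cj_cj (g : ℤˣ) (z : ℂ) : cj g (cj g z) = z := by
  rw [← cj_mul, Int.units_mul_self, cj_one]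

theorem cj_pow (g : ℤˣ) (z : ℂ) : cj g (z ^ 2) = (cj g z) ^ 2 := by
  unfold cj; split_ifs <;> simp

theorem cj_map_one (g : ℤˣ) : cj g 1 = 1 := by
  unfold cj; split_ifs <;> simp

theorem cj_map_neg_one (g : ℤˣ) : cj g (-1) = -1 := by
  unfold cj; split_ifs <;> simp

theorem cj_neg (g : ℤˣ) (z : ℂ) : cj g (-z) = -cj g z := by
  unfold cj; split_ifs <;> simp

theorem continuous_cj (g : ℤˣ) : Continuous (cj g) := by
  unfold cj
  split_ifs
  · exact continuous_id
  · exact continuous_conj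

theorem norm_cj (g : ℤˣ) (z : ℂ) : ‖cj g z‖ = ‖z‖ := by
  unfold cj; split_ifs <;> simp

/-- the equivariant square root -/
noncomputable def root (g : ℤˣ) (z : ℂ) : ℂ := cj g ((cj g z) ^ (1 / 2 : ℂ))

theorem root_sq (g : ℤˣ) (z : ℂ) : root g z ^ 2 = z := by
  unfold root
  rw [← cj_pow, ← cpow_nat_mul]
  norm_num
  rw [cj_cj]

theorem root_act (h g : ℤˣ) (z : ℂ) : root (h * g) (cj h z) = cj h (root g z) := by
  unfold root
  rw [← cj_mul, ← cj_mul, mul_assoc, mul_comm g h, ← mul_assoc, Int.units_mul_self, one_mul]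

theorem root_map_one (g : ℤˣ) : root g 1 = 1 := by
  unfold root
  rw [cj_map_one, one_cpow, cj_map_one]

theorem root_one_neg_one : root 1 (-1) = I := by
  unfold root
  rw [cj_one, cj_one, cpow_def_of_ne_zero (by norm_num), log_neg_one]
  have : (Real.pi : ℂ) * I * (1 / 2) = Real.pi / 2 * I := by ring
  rw [this, exp_pi_div_two_mul_I]

theorem root_neg_one (g : ℤˣ) : root g (-1) = cj g I := by
  have := root_act g 1 (-1)
  rwa [mul_one, cj_map_neg_one, root_one_neg_one] at this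

theorem cj_I_eq {g h : ℤˣ} : cj g I = cj h I ↔ g = h := by
  have hI : I ≠ -I := by
    intro h
    have := congrArg Complex.im h
    norm_num at this
  refine ⟨fun hh => ?_, fun hh => by rw [hh]⟩
  rcases Int.units_eq_one_or g with rfl | rfl <;> rcases Int.units_eq_one_or h with rfl | rfl
  · rfl
  · rw [cj_one, cj_neg_one, conj_I] at hh
    exact absurd hh hI
  · rw [cj_one, cj_neg_one, conj_I] at hh
    exact absurd hh.symm hI
  · rfl

/-- the vertex `i` -/
noncomputable def vtx {n : ℕ} (i : Fin (n + 1)) : stdSimplex ℝ (Fin (n + 1)) :=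
  stdSimplex.vertex i

theorem aff_vtx {m n : ℕ} (α : Fin (m + 1) → Fin (n + 1)) (i : Fin (m + 1)) :
    aff α (vtx i) = vtx (α i) := stdSimplex.map_vertex α i

instance preconnected_simplex (n : ℕ) : PreconnectedSpace (stdSimplex ℝ (Fin (n + 1))) :=
  Subtype.preconnectedSpace (convex_stdSimplex ℝ (Fin (n + 1))).isPreconnected

/-- square roots of nowhere zero functions on a simplex -/
theorem exists_sqrt {n : ℕ} (f : C(stdSimplex ℝ (Fin (n + 1)), ℂ)) (hf : ∀ t, f t ≠ 0) :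
    ∃ w : C(stdSimplex ℝ (Fin (n + 1)), ℂ), ∀ t, w t ^ 2 = f t := by
  have hconv := convex_stdSimplex ℝ (Fin (n + 1))
  let x0 : stdSimplex ℝ (Fin (n + 1)) := vtx 0
  let seg : unitInterval × stdSimplex ℝ (Fin (n + 1)) → stdSimplex ℝ (Fin (n + 1)) :=
    fun p => ⟨(1 - (p.1 : ℝ)) • (x0 : Fin (n + 1) → ℝ) + (p.1 : ℝ) • (p.2 : Fin (n + 1) → ℝ),
      hconv x0.2 p.2.2 (by linarith [p.1.2.2]) p.1.2.1 (by ring)⟩
  have hseg : Continuous seg := by
    refine Continuous.subtype_mk ?_ _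
    have h1 : Continuous fun p : unitInterval × stdSimplex ℝ (Fin (n + 1)) =>
        (p.2 : Fin (n + 1) → ℝ) := continuous_subtype_val.comp continuous_snd
    have h2 : Continuous fun p : unitInterval × stdSimplex ℝ (Fin (n + 1)) => (p.1 : ℝ) :=
      continuous_subtype_val.comp continuous_fst
    exact ((continuous_const.sub h2).smul continuous_const).add (h2.smul h1)
  let H : C(unitInterval × stdSimplex ℝ (Fin (n + 1)), {x : ℂ // x ≠ 0}) :=
    ⟨fun p => ⟨f (seg p), hf _⟩, (f.continuous.comp hseg).subtype_mk _⟩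
  have cov := isCoveringMap_npow (𝕜 := ℂ) 2 (by norm_num)
  have hz : f x0 ^ (1 / 2 : ℂ) ≠ 0 := by
    intro h
    have := root_sq 1 (f x0)
    rw [root, cj_one, cj_one, h] at this
    exact hf x0 (by rw [← this]; norm_num)
  let f0 : C(stdSimplex ℝ (Fin (n + 1)), {x : ℂ // x ≠ 0}) :=
    ContinuousMap.const _ ⟨f x0 ^ (1 / 2 : ℂ), hz⟩
  have H0 : ∀ a, H (0, a) = (fun x : {x : ℂ // x ≠ 0} =>
      (⟨x ^ 2, pow_ne_zero 2 x.2⟩ : {x : ℂ // x ≠ 0})) (f0 a) := by
    intro a
    apply Subtype.ext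
    change f (seg (0, a)) = (f x0 ^ (1 / 2 : ℂ)) ^ 2
    have e : seg (0, a) = x0 := by
      apply Subtype.ext
      change (1 - (0 : ℝ)) • (x0 : Fin (n + 1) → ℝ) + (0 : ℝ) • (a : Fin (n + 1) → ℝ) = x0
      rw [sub_zero, one_smul, zero_smul, add_zero]
    rw [e]
    have := root_sq 1 (f x0)
    rw [root, cj_one, cj_one] at this
    exact this.symm
  let L := cov.liftHomotopy H f0 H0
  refine ⟨⟨fun t => (L (1, t) : ℂ), by fun_prop⟩, fun t => ?_⟩
  have := congrFun (cov.liftHomotopy_lifts H f0 H0) (1, t)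
  have h2 := congrArg Subtype.val this
  change (L (1, t) : ℂ) ^ 2 = f (seg (1, t)) at h2
  have e : seg (1, t) = t := by
    apply Subtype.ext
    change (1 - (1 : ℝ)) • (x0 : Fin (n + 1) → ℝ) + (1 : ℝ) • (t : Fin (n + 1) → ℝ) = t
    rw [sub_self, one_smul, zero_smul, zero_add]
  rw [e] at h2
  exact h2

section Cls

variable {Y : Type} [TopologicalSpace Y] [MulAction ℤˣ Y] [ContinuousConstSMul ℤˣ Y]
variable (c : C(Y, ℂ))

/-- a square root along an edge, with the prescribed values at the ends -/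
def Wit (s : Simp ℤˣ Y 1) : Prop :=
  ∃ w : C(stdSimplex ℝ (Fin 2), ℂ), (∀ t, w t ^ 2 = c (s.2 t)) ∧
    w (vtx 0) = root (s.1 0) (c (s.2 (vtx 0))) ∧ w (vtx 1) = root (s.1 1) (c (s.2 (vtx 1)))

open Classical in
/-- the cocycle of the equivariant double cover `w² = c` -/
noncomputable def yc (s : Simp ℤˣ Y 1) : ZMod 2 := if Wit c s then 0 else 1

open Classical in
/-- the sign of a square root at a vertex -/
noncomputable def sg {n : ℕ} (w : C(stdSimplex ℝ (Fin (n + 1)), ℂ)) (s : Simp ℤˣ Y n)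
    (i : Fin (n + 1)) : ZMod 2 :=
  if w (vtx i) = root (s.1 i) (c (s.2 (vtx i))) then 0 else 1

variable {c}

omit [MulAction ℤˣ Y] [ContinuousConstSMul ℤˣ Y] in
theorem sg_cases {n : ℕ} {w : C(stdSimplex ℝ (Fin (n + 1)), ℂ)} {s : Simp ℤˣ Y n}
    (hw : ∀ t, w t ^ 2 = c (s.2 t)) (i : Fin (n + 1)) :
    (sg c w s i = 0 ∧ w (vtx i) = root (s.1 i) (c (s.2 (vtx i)))) ∨
    (sg c w s i = 1 ∧ w (vtx i) = -root (s.1 i) (c (s.2 (vtx i))) ∧
      w (vtx i) ≠ root (s.1 i) (c (s.2 (vtx i)))) := by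
  have h := hw (vtx i)
  rw [← root_sq (s.1 i) (c (s.2 (vtx i)))] at h
  by_cases h' : w (vtx i) = root (s.1 i) (c (s.2 (vtx i)))
  · exact Or.inl ⟨if_pos h', h'⟩
  · refine Or.inr ⟨if_neg h', ?_, h'⟩
    rcases sq_eq_sq_iff_eq_or_eq_neg.mp h with h | h
    · exact absurd h h'
    · exact h

omit [MulAction ℤˣ Y] [ContinuousConstSMul ℤˣ Y] in
theorem yc_eq (hc : ∀ y, c y ≠ 0) {n : ℕ} {w : C(stdSimplex ℝ (Fin (n + 1)), ℂ)}
    {s : Simp ℤˣ Y n} (hw : ∀ t, w t ^ 2 = c (s.2 t)) (α : Fin 2 → Fin (n + 1)) :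
    yc c (pull s α) = sg c w s (α 0) + sg c w s (α 1) := by
  have hw' : ∀ t, (w.comp (aff α)) t ^ 2 = c ((pull s α).2 t) := fun t => hw _
  have h0 : (aff α) (vtx 0) = vtx (α 0) := aff_vtx α 0
  have h1 : (aff α) (vtx 1) = vtx (α 1) := aff_vtx α 1
  have hwit : Wit c (pull s α) ↔ ∃ u : C(stdSimplex ℝ (Fin 2), ℂ),
      (∀ t, u t ^ 2 = c ((pull s α).2 t)) ∧
      u (vtx 0) = root (s.1 (α 0)) (c (s.2 (vtx (α 0)))) ∧
      u (vtx 1) = root (s.1 (α 1)) (c (s.2 (vtx (α 1)))) := by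
    unfold Wit
    change (∃ u : C(stdSimplex ℝ (Fin 2), ℂ), (∀ t, u t ^ 2 = c ((pull s α).2 t)) ∧
      u (vtx 0) = root (s.1 (α 0)) (c (s.2 (aff α (vtx 0)))) ∧
      u (vtx 1) = root (s.1 (α 1)) (c (s.2 (aff α (vtx 1))))) ↔ _
    rw [h0, h1]
  have huniq : ∀ u : C(stdSimplex ℝ (Fin 2), ℂ), (∀ t, u t ^ 2 = c ((pull s α).2 t)) →
      (∀ t, u t = w (aff α t)) ∨ (∀ t, u t = -w (aff α t)) := by
    intro u hu
    have hp : IsPreconnected (Set.univ : Set (stdSimplex ℝ (Fin 2))) :=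
      isPreconnected_univ
    have := hp.eq_or_eq_neg_of_sq_eq (f := u) (g := w.comp (aff α)) u.continuous.continuousOn
      (w.comp (aff α)).continuous.continuousOn
      (fun t _ => by
        simp only [Pi.pow_apply]
        rw [hu t, hw' t])
      (fun {t} _ h => hc ((pull s α).2 t) (by rw [← hw' t, h]; norm_num))
    rcases this with h | h
    · exact Or.inl fun t => h (Set.mem_univ t)
    · exact Or.inr fun t => h (Set.mem_univ t)
  have hne : ∀ i, w (vtx i) ≠ 0 := fun i h => hc (s.2 (vtx i)) (by rw [← hw, h]; norm_num)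
  unfold yc
  rcases sg_cases hw (α 0) with ⟨e0, f0⟩ | ⟨e0, f0, g0⟩ <;>
    rcases sg_cases hw (α 1) with ⟨e1, f1⟩ | ⟨e1, f1, g1⟩
  · rw [e0, e1, if_pos]
    · rfl
    · rw [hwit]
      exact ⟨w.comp (aff α), hw', by rw [← f0, ← h0]; rfl, by rw [← f1, ← h1]; rfl⟩
  · rw [e0, e1, if_neg]
    · rfl
    · rw [hwit]
      rintro ⟨u, hu, u0, u1⟩
      rcases huniq u hu with h | h
      · apply g1
        rw [← u1, h, h1]
      · rw [h, h0, ← f0] at u0
        exact hne _ (neg_eq_self.mp u0)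
  · rw [e0, e1, if_neg]
    · rfl
    · rw [hwit]
      rintro ⟨u, hu, u0, u1⟩
      rcases huniq u hu with h | h
      · apply g0
        rw [← u0, h, h0]
      · rw [h, h1, ← f1] at u1
        exact hne _ (neg_eq_self.mp u1)
  · rw [e0, e1, if_pos]
    · rfl
    · rw [hwit]
      refine ⟨-(w.comp (aff α)), fun t => ?_, ?_, ?_⟩
      · rw [ContinuousMap.neg_apply, neg_sq]
        exact hw' t
      · rw [ContinuousMap.neg_apply, ContinuousMap.comp_apply, h0, f0, neg_neg]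
      · rw [ContinuousMap.neg_apply, ContinuousMap.comp_apply, h1, f1, neg_neg]

theorem Wit.act (heq : ∀ (g : ℤˣ) (y : Y), c (g • y) = cj g (c y)) (g : ℤˣ)
    {s : Simp ℤˣ Y 1} (h : Wit c s) : Wit c (ETC.act g s) := by
  obtain ⟨w, hw, w0, w1⟩ := h
  refine ⟨(⟨cj g, continuous_cj g⟩ : C(ℂ, ℂ)).comp w, fun t => ?_, ?_, ?_⟩
  · change cj g (w t) ^ 2 = c (g • s.2 t)
    rw [heq, ← hw, cj_pow]
  · change cj g (w (vtx 0)) = root (g * s.1 0) (c (g • s.2 (vtx 0)))
    rw [heq, root_act, w0]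
  · change cj g (w (vtx 1)) = root (g * s.1 1) (c (g • s.2 (vtx 1)))
    rw [heq, root_act, w1]

theorem act_act (g : ℤˣ) {n : ℕ} (s : Simp ℤˣ Y n) : ETC.act g (ETC.act g s) = s := by
  refine Prod.ext ?_ ?_
  · funext i
    change g * (g * s.1 i) = s.1 i
    rw [← mul_assoc, Int.units_mul_self, one_mul]
  · ext t
    change g • (g • s.2 t) = s.2 t
    rw [smul_smul, Int.units_mul_self, one_smul]

theorem yc_mem (hc : ∀ y, c y ≠ 0) (heq : ∀ (g : ℤˣ) (y : Y), c (g • y) = cj g (c y)) :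
    yc c ∈ Z ℤˣ Y 1 := by
  refine ⟨fun g s => ?_, ?_⟩
  · have : Wit c (ETC.act g s) ↔ Wit c s := by
      refine ⟨fun h => ?_, fun h => h.act heq g⟩
      have := h.act heq g
      rwa [act_act] at this
    change yc c (ETC.act g s) = yc c s
    unfold yc
    by_cases h : Wit c s
    · rw [if_pos h, if_pos (this.mpr h)]
    · rw [if_neg h, if_neg (mt this.mp h)]
  · funext s
    obtain ⟨w, hw⟩ := exists_sqrt (c.comp s.2) (fun t => hc _)
    have hw' : ∀ t, w t ^ 2 = c (s.2 t) := hw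
    simp only [δ, Pi.zero_apply]
    rw [Finset.sum_range_succ, Finset.sum_range_succ, Finset.sum_range_succ,
      Finset.sum_range_zero, zero_add, yc_eq hc hw', yc_eq hc hw', yc_eq hc hw']
    have a0 : (face rfl 0 : Fin 2 → Fin 3) 0 = 1 := rfl
    have a1 : (face rfl 0 : Fin 2 → Fin 3) 1 = 2 := rfl
    have b0 : (face rfl 1 : Fin 2 → Fin 3) 0 = 0 := rfl
    have b1 : (face rfl 1 : Fin 2 → Fin 3) 1 = 2 := rfl
    have c0 : (face rfl 2 : Fin 2 → Fin 3) 0 = 0 := rfl
    have c1 : (face rfl 2 : Fin 2 → Fin 3) 1 = 1 := rfl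
    rw [a0, a1, b0, b1, c0, c1]
    have h0 := CharTwo.add_self_eq_zero (sg c w s 0)
    have h1 := CharTwo.add_self_eq_zero (sg c w s 1)
    have h2 := CharTwo.add_self_eq_zero (sg c w s 2)
    linear_combination h0 + h1 + h2

/-- the characteristic class of the double cover `w² = c` -/
noncomputable def ycls (hc : ∀ y, c y ≠ 0) (heq : ∀ (g : ℤˣ) (y : Y), c (g • y) = cj g (c y)) :
    Z ℤˣ Y 1 := ⟨yc c, yc_mem hc heq⟩

omit [MulAction ℤˣ Y] [ContinuousConstSMul ℤˣ Y] in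
/-- value on simplices on which `c = 1` -/
theorem yc_one {s : Simp ℤˣ Y 1} (h : ∀ t, c (s.2 t) = 1) : yc c s = 0 := by
  unfold yc
  rw [if_pos]
  refine ⟨ContinuousMap.const _ 1, fun t => ?_, ?_, ?_⟩
  · rw [h]; simp
  · rw [h, root_map_one]; rfl
  · rw [h, root_map_one]; rfl

omit [MulAction ℤˣ Y] [ContinuousConstSMul ℤˣ Y] in
/-- value on simplices on which `c = -1` -/
theorem yc_neg_one {s : Simp ℤˣ Y 1} (h : ∀ t, c (s.2 t) = -1) :
    yc c s = if s.1 0 = s.1 1 then 0 else 1 := by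
  unfold yc
  have : Wit c s ↔ s.1 0 = s.1 1 := by
    constructor
    · rintro ⟨w, hw, w0, w1⟩
      rw [h, root_neg_one] at w0 w1
      have hp : IsPreconnected (Set.univ : Set (stdSimplex ℝ (Fin 2))) :=
        isPreconnected_univ
      have hI : (cj (s.1 0) I) ^ 2 = -1 := by
        rw [← cj_pow, I_sq, cj_map_neg_one]
      have hne : cj (s.1 0) I ≠ 0 := by
        intro h0
        rw [h0] at hI
        norm_num at hI
      have := hp.eq_or_eq_neg_of_sq_eq (f := w) (g := fun _ => cj (s.1 0) I)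
        w.continuous.continuousOn continuousOn_const
        (fun t _ => by
          simp only [Pi.pow_apply]
          rw [hw, h, hI])
        (fun {t} _ => hne)
      rcases this with h' | h'
      · have h1 := h' (Set.mem_univ (vtx 1))
        rw [w1] at h1
        exact (cj_I_eq.mp h1).symm
      · have h1 := h' (Set.mem_univ (vtx 0))
        rw [w0] at h1
        exact absurd (neg_eq_self.mp h1.symm) hne
    · intro hg
      refine ⟨ContinuousMap.const _ (cj (s.1 0) I), fun t => ?_, ?_, ?_⟩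
      · rw [h, ContinuousMap.const_apply, ← cj_pow, I_sq, cj_map_neg_one]
      · rw [h, root_neg_one]; rfl
      · rw [h, root_neg_one, ← hg]; rfl
  simp only [this]

end Cls

end Pool.Agent.Q171.ETC
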