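import Pool.Agent.Q171.ETC.Cls

/-!
# Powers of a degree one class evaluated on the cross-polytope cycle
-/

set_option autoImplicit false

namespace Pool.Agent.Q171.ETC

section Pow

variable {Y : Type} [TopologicalSpace Y] [MulAction ℤˣ Y] [ContinuousConstSMul ℤˣ Y]

/-- the powers of a cocycle of degree one -/
noncomputable def powC (y : Z ℤˣ Y 1) : ℕ → Σ n, Z ℤˣ Y n
  | 0 => ⟨0, ⟨fun _ => 1, one_mem⟩⟩
  | k + 1 => ⟨1 + (powC y k).1, cupZ rfl y (powC y k).2⟩

theorem powC_deg (y : Z ℤˣ Y 1) (k : ℕ) : (powC y k).1 = k := by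
  induction k with
  | zero => rfl
  | succ k ih =>
    change 1 + (powC y k).1 = k + 1
    rw [ih, add_comm]

theorem prodH_replicate (y : Z ℤˣ Y 1) (k : ℕ) :
    prodH (List.replicate k (⟨1, cls y⟩ : Σ n, H ℤˣ Y n)) = ⟨(powC y k).1, cls (powC y k).2⟩ := by
  induction k with
  | zero => rfl
  | succ k ih =>
    exact congrArg (fun a : Σ n, H ℤˣ Y n =>
      (⟨1 + a.1, cupH rfl (cls y) a.2⟩ : Σ n, H ℤˣ Y n)) ih

/-- consecutive entries are different -/
def Alt {n : ℕ} (g : Fin (n + 1) → ℤˣ) : Prop :=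
  ∀ i j : Fin (n + 1), j.1 = i.1 + 1 → g i ≠ g j

theorem alt_iff {q n : ℕ} (h : 1 + q = n) (g : Fin (n + 1) → ℤˣ) :
    Alt g ↔ (g ⟨0, by omega⟩ ≠ g ⟨1, by omega⟩) ∧ Alt (g ∘ back h) := by
  constructor
  · intro hg
    refine ⟨hg _ _ rfl, fun i j hij => hg _ _ ?_⟩
    simp only [back]
    omega
  · rintro ⟨h0, h1⟩ i j hij
    by_cases hi : i.1 = 0
    · have e1 : i = ⟨0, by omega⟩ := Fin.ext hi
      have e2 : j = ⟨1, by omega⟩ := Fin.ext (by simp only []; omega)
      rw [e1, e2]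
      exact h0
    · have := h1 ⟨i.1 - 1, by omega⟩ ⟨j.1 - 1, by omega⟩ (by simp only []; omega)
      simp only [back, Function.comp_apply] at this
      have e1 : i = ⟨1 + (i.1 - 1), by omega⟩ := Fin.ext (by simp only []; omega)
      have e2 : j = ⟨1 + (j.1 - 1), by omega⟩ := Fin.ext (by simp only []; omega)
      rwa [← e1, ← e2] at this

open Classical in
theorem powC_apply (y : Z ℤˣ Y 1) (k : ℕ) (s : Simp ℤˣ Y (powC y k).1)
    (hs : ∀ α : Fin 2 → Fin ((powC y k).1 + 1),
      y.1 (pull s α) = if s.1 (α 0) = s.1 (α 1) then 0 else 1) :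
    (powC y k).2.1 s = if Alt s.1 then 1 else 0 := by
  induction k with
  | zero =>
    have : Alt s.1 := by
      intro i j hij
      have h1 : j.1 < 0 + 1 := j.2
      omega
    rw [if_pos this]
    rfl
  | succ k ih =>
    have e : (powC y (k + 1)).2.1 s = y.1 (pull s (front rfl)) *
      (powC y k).2.1 (pull s (back rfl)) := rfl
    rw [e, hs, ih (pull s (back rfl)) (fun α => by rw [pull_pull]; exact hs _)]
    have hiff := alt_iff (q := (powC y k).1) (n := (powC y (k + 1)).1) rfl s.1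
    by_cases h0 : s.1 (front rfl 0) = s.1 (front rfl 1)
    · rw [if_pos h0, zero_mul, if_neg]
      intro hh
      exact (hiff.mp hh).1 h0
    · rw [if_neg h0, one_mul]
      have h2 : Alt s.1 ↔ Alt (pull s (back (q := (powC y k).1) rfl)).1 :=
        hiff.trans ⟨fun h => h.2, fun h => ⟨h0, h⟩⟩
      by_cases h3 : Alt s.1
      · rw [if_pos h3, if_pos (h2.mp h3)]
      · rw [if_neg h3, if_neg (mt h2.mpr h3)]

variable {d : ℕ} (τ : (Fin (d + 1) → ℤˣ) → C(stdSimplex ℝ (Fin (d + 1)), Y))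

/-- the evaluation on the chain of all simplices `(g, τ g)` with `g 0 = 1` -/
noncomputable def ev (c : Simp ℤˣ Y d → ZMod 2) : ZMod 2 :=
  ∑ g ∈ Finset.univ.filter (fun g : Fin (d + 1) → ℤˣ => g 0 = 1), c (g, τ g)

theorem units_neg_ne (u : ℤˣ) : -u ≠ u := by
  rcases Int.units_eq_one_or u with rfl | rfl <;> decide

/-- flip the entry `i`; for `i = 0` flip all the other entries -/
def flip (i : ℕ) (g : Fin (d + 1) → ℤˣ) : Fin (d + 1) → ℤˣ :=
  fun j => if i = 0 then (if j.1 = 0 then g j else -g j) else (if j.1 = i then -g j else g j)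

theorem flip_flip (i : ℕ) (g : Fin (d + 1) → ℤˣ) : flip i (flip i g) = g := by
  funext j
  unfold flip
  split_ifs <;> simp

theorem flip_zero (i : ℕ) (g : Fin (d + 1) → ℤˣ) : flip i g 0 = g 0 := by
  unfold flip
  split_ifs with h1 h2 h3
  · rfl
  · exact absurd rfl h2
  · exact absurd h3.symm h1
  · rfl

theorem ev_δ {m : ℕ} (h : m + 1 = d) {b : Simp ℤˣ Y m → ZMod 2} (hb : Inv b)
    (P1 : ∀ (i : ℕ) (g g' : Fin (d + 1) → ℤˣ), i < d + 1 → (∀ j, j.1 ≠ i → g j = g' j) →
      (τ g).comp (aff (face h i)) = (τ g').comp (aff (face h i)))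
    (P2 : ∀ (u : ℤˣ) (g : Fin (d + 1) → ℤˣ), trans u (τ g) = τ (fun i => u * g i)) :
    ev τ (δ h b) = 0 := by
  unfold ev δ
  rw [Finset.sum_comm]
  refine Finset.sum_eq_zero fun i hi => ?_
  rw [Finset.mem_range] at hi
  -- the face `i` depends only on the entries different from `i`
  have key : ∀ g g' : Fin (d + 1) → ℤˣ, (∀ j, j.1 ≠ i → g j = g' j) →
      b (pull (g, τ g) (face h i)) = b (pull (g', τ g') (face h i)) := by
    intro g g' hg
    congr 1
    refine Prod.ext ?_ (P1 i g g' hi hg)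
    funext j
    apply hg
    simp only [face]
    split_ifs <;> omega
  have neg : ∀ g : Fin (d + 1) → ℤˣ,
      b (pull ((fun j => -1 * g j), τ (fun j => -1 * g j)) (face h i)) =
        b (pull (g, τ g) (face h i)) := by
    intro g
    rw [← hb (-1) (pull (g, τ g) (face h i)), act_pull]
    congr 2
    refine Prod.ext rfl ?_
    exact (P2 (-1) g).symm
  have flipF : ∀ g : Fin (d + 1) → ℤˣ, b (pull (flip i g, τ (flip i g)) (face h i)) =
      b (pull (g, τ g) (face h i)) := by
    intro g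
    by_cases h0 : i = 0
    · rw [← neg g]
      apply key
      intro j hj
      unfold flip
      rw [if_pos h0, if_neg (by omega), neg_one_mul]
    · apply key
      intro j hj
      unfold flip
      rw [if_neg h0, if_neg hj]
  refine Finset.sum_involution (fun g _ => flip i g) (fun g _ => ?_) (fun g _ _ hfix => ?_)
    (fun g hg => ?_) (fun g _ => flip_flip i g)
  · rw [flipF]
    exact CharTwo.add_self_eq_zero _
  · by_cases h0 : i = 0
    · have := congrFun hfix ⟨1, by omega⟩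
      unfold flip at this
      rw [if_pos h0, if_neg (by simp)] at this
      exact units_neg_ne _ this
    · have := congrFun hfix ⟨i, hi⟩
      unfold flip at this
      rw [if_neg h0, if_pos rfl] at this
      exact units_neg_ne _ this
  · rw [Finset.mem_filter] at hg ⊢
    exact ⟨Finset.mem_univ _, by rw [flip_zero]; exact hg.2⟩

open Classical in
theorem sum_alt : (∑ g ∈ Finset.univ.filter (fun g : Fin (d + 1) → ℤˣ => g 0 = 1),
    (if Alt g then (1 : ZMod 2) else 0)) = 1 := by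
  have hneg : ∀ u v : ℤˣ, u ≠ v → v = -u := by
    intro u v
    rcases Int.units_eq_one_or u with rfl | rfl <;> rcases Int.units_eq_one_or v with rfl | rfl <;>
      decide
  rw [Finset.sum_eq_single (fun j : Fin (d + 1) => (-1 : ℤˣ) ^ j.1)]
  · rw [if_pos]
    intro i j hij
    simp only [hij, pow_succ]
    intro h
    exact units_neg_ne ((-1 : ℤˣ) ^ i.1) (by rw [mul_neg_one] at h; exact h.symm)
  · intro g hg hne
    rw [if_neg]
    intro hA
    apply hne
    rw [Finset.mem_filter] at hg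
    have : ∀ (k : ℕ) (hk : k < d + 1), g ⟨k, hk⟩ = (-1 : ℤˣ) ^ k := by
      intro k
      induction k with
      | zero => intro hk; rw [pow_zero]; exact hg.2
      | succ k ih =>
        intro hk
        have h1 := hA ⟨k, by omega⟩ ⟨k + 1, hk⟩ rfl
        rw [hneg _ _ h1, ih, pow_succ, mul_neg_one]
    funext j
    exact this j.1 j.2
  · intro h
    exact absurd (Finset.mem_filter.mpr ⟨Finset.mem_univ _, by simp⟩) h

/-- nonvanishing of a power of a class of degree one -/
theorem cls_powC_ne (y : Z ℤˣ Y 1) (k : ℕ)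
    (τ : (Fin ((powC y k).1 + 1) → ℤˣ) → C(stdSimplex ℝ (Fin ((powC y k).1 + 1)), Y))
    (hy : ∀ (g : Fin ((powC y k).1 + 1) → ℤˣ) (α : Fin 2 → Fin ((powC y k).1 + 1)),
      y.1 (pull (g, τ g) α) = if g (α 0) = g (α 1) then 0 else 1)
    (P1 : ∀ (m : ℕ) (h : m + 1 = (powC y k).1) (i : ℕ) (g g' : Fin ((powC y k).1 + 1) → ℤˣ),
      i < (powC y k).1 + 1 → (∀ j, j.1 ≠ i → g j = g' j) →
      (τ g).comp (aff (face h i)) = (τ g').comp (aff (face h i)))
    (P2 : ∀ (u : ℤˣ) (g : Fin ((powC y k).1 + 1) → ℤˣ), trans u (τ g) = τ (fun i => u * g i)) :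
    cls (powC y k).2 ≠ 0 := by
  classical
  rw [Ne, cls_eq_zero]
  have h1 : ev τ (powC y k).2.1 = 1 := by
    unfold ev
    rw [← sum_alt (d := (powC y k).1)]
    refine Finset.sum_congr rfl fun g _ => ?_
    exact powC_apply y k (g, τ g) (hy g)
  rintro (h | ⟨m, h, b, hb, h'⟩)
  · rw [h] at h1
    simp [ev] at h1
  · rw [← h', ev_δ τ h hb (P1 m h) P2] at h1
    exact zero_ne_one h1

end Pow

section Sphere

variable {E : Type} [NormedAddCommGroup E] [NormedSpace ℝ E] {d : ℕ} (v : Fin (d + 1) → E)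

/-- a sign as a real number -/
def sr (u : ℤˣ) : ℝ := ((u : ℤ) : ℝ)

theorem sr_mul (u w : ℤˣ) : sr (u * w) = sr u * sr w := by simp [sr]

theorem sr_ne (u : ℤˣ) : sr u ≠ 0 := by
  rcases Int.units_eq_one_or u with rfl | rfl <;> simp [sr]

theorem abs_sr (u : ℤˣ) : ‖sr u‖ = 1 := by
  rcases Int.units_eq_one_or u with rfl | rfl <;> simp [sr]

/-- the affine simplex with vertices `g_i v_i` -/
noncomputable def lin (g : Fin (d + 1) → ℤˣ) (t : Fin (d + 1) → ℝ) : E :=
  ∑ i, (t i * sr (g i)) • v i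

variable {v}

theorem lin_ne (hv : LinearIndependent ℝ v) (g : Fin (d + 1) → ℤˣ)
    (t : stdSimplex ℝ (Fin (d + 1))) : lin v g t ≠ 0 := by
  intro h
  have h1 := Fintype.linearIndependent_iff.mp hv (fun i => t i * sr (g i)) h
  have h2 : ∀ i, t i = 0 := fun i => by
    rcases mul_eq_zero.mp (h1 i) with h | h
    · exact h
    · exact absurd h (sr_ne _)
  have h3 : ∑ i, t i = 1 := stdSimplex.sum_eq_one t
  rw [Finset.sum_eq_zero fun i _ => h2 i] at h3
  exact zero_ne_one h3

theorem continuous_lin (g : Fin (d + 1) → ℤˣ) :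
    Continuous fun t : stdSimplex ℝ (Fin (d + 1)) => lin v g t := by
  unfold lin
  refine continuous_finsetSum _ fun i _ => ?_
  refine Continuous.smul (Continuous.mul ?_ continuous_const) continuous_const
  exact (continuous_apply i).comp continuous_subtype_val

theorem mem_sph (hv : LinearIndependent ℝ v) (g : Fin (d + 1) → ℤˣ)
    (t : stdSimplex ℝ (Fin (d + 1))) :
    ‖lin v g t‖⁻¹ • lin v g t ∈ Metric.sphere (0 : E) 1 := by
  rw [mem_sphere_zero_iff_norm, norm_smul, norm_inv, norm_norm]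
  exact inv_mul_cancel₀ (norm_ne_zero_iff.mpr (lin_ne hv g t))

theorem continuous_sph (hv : LinearIndependent ℝ v) (g : Fin (d + 1) → ℤˣ) :
    Continuous fun t : stdSimplex ℝ (Fin (d + 1)) =>
      (⟨‖lin v g t‖⁻¹ • lin v g t, mem_sph hv g t⟩ : Metric.sphere (0 : E) 1) :=
  Continuous.subtype_mk (((continuous_lin g).norm.inv₀
      fun t => norm_ne_zero_iff.mpr (lin_ne hv g t)).smul (continuous_lin g)) _

/-- the simplex with vertices `g_i v_i / ‖v_i‖` on the unit sphere -/
noncomputable def sph (hv : LinearIndependent ℝ v) (g : Fin (d + 1) → ℤˣ) :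
    C(stdSimplex ℝ (Fin (d + 1)), Metric.sphere (0 : E) 1) :=
  ⟨fun t => ⟨‖lin v g t‖⁻¹ • lin v g t, mem_sph hv g t⟩, continuous_sph hv g⟩

theorem lin_mul (u : ℤˣ) (g : Fin (d + 1) → ℤˣ) (t : Fin (d + 1) → ℝ) :
    lin v (fun i => u * g i) t = sr u • lin v g t := by
  unfold lin
  rw [Finset.smul_sum]
  refine Finset.sum_congr rfl fun i _ => ?_
  rw [sr_mul, smul_smul]
  congr 1
  ring

theorem sph_mul (hv : LinearIndependent ℝ v) (u : ℤˣ) (g : Fin (d + 1) → ℤˣ)
    (t : stdSimplex ℝ (Fin (d + 1))) :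
    (sph hv (fun i => u * g i) t : E) = sr u • (sph hv g t : E) := by
  change ‖lin v (fun i => u * g i) t‖⁻¹ • lin v (fun i => u * g i) t =
    sr u • (‖lin v g t‖⁻¹ • lin v g t)
  rw [lin_mul, norm_smul, abs_sr, one_mul, smul_comm]

theorem lin_face {m : ℕ} (h : m + 1 = d) {i : ℕ} {g g' : Fin (d + 1) → ℤˣ}
    (hg : ∀ j, j.1 ≠ i → g j = g' j) (t : stdSimplex ℝ (Fin (m + 1))) :
    lin v g (aff (face h i) t) = lin v g' (aff (face h i) t) := by
  unfold lin
  refine Finset.sum_congr rfl fun j _ => ?_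
  by_cases hj : j.1 = i
  · have : (aff (face h i) t) j = 0 := by
      change FunOnFinite.linearMap ℝ ℝ (face h i) t j = 0
      rw [FunOnFinite.linearMap_apply_apply]
      rw [Finset.filter_false_of_mem]
      · rfl
      · intro k _ hk
        have := congrArg Fin.val hk
        simp only [face] at this
        split_ifs at this <;> omega
    rw [this, zero_mul, zero_mul]
  · rw [hg j hj]

theorem sph_face (hv : LinearIndependent ℝ v) {m : ℕ} (h : m + 1 = d) {i : ℕ}
    {g g' : Fin (d + 1) → ℤˣ} (hg : ∀ j, j.1 ≠ i → g j = g' j) :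
    (sph hv g).comp (aff (face h i)) = (sph hv g').comp (aff (face h i)) := by
  ext1 t
  apply Subtype.ext
  change ‖lin v g (aff (face h i) t)‖⁻¹ • lin v g (aff (face h i) t) =
    ‖lin v g' (aff (face h i) t)‖⁻¹ • lin v g' (aff (face h i) t)
  rw [lin_face h hg]

end Sphere

end Pool.Agent.Q171.ETC
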