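import Mathlib

/-!
# The circle with a reflection and the sphere with the antipodal map
-/

set_option autoImplicit false

namespace Pool.Agent.Q171.ETC

/-- the circle, as the unit sphere of `ℂ` -/
def Circ : Type := Metric.sphere (0 : ℂ) 1

/-- the sphere `S^{2m-1}`, as the unit sphere of `ℂ^m` -/
def Sph (m : ℕ) : Type := Metric.sphere (0 : EuclideanSpace ℂ (Fin m)) 1

noncomputable instance topCirc : TopologicalSpace Circ := instTopologicalSpaceSubtype

noncomputable instance topSph (m : ℕ) : TopologicalSpace (Sph m) := instTopologicalSpaceSubtype

theorem conj_mem (z : Circ) : (starRingEnd ℂ) z.1 ∈ Metric.sphere (0 : ℂ) 1 := by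
  have := z.2
  rw [mem_sphere_zero_iff_norm] at this ⊢
  rwa [Complex.norm_conj]

/-- the reflection of the circle -/
noncomputable def reflection (z : Circ) : Circ := ⟨(starRingEnd ℂ) z.1, conj_mem z⟩

theorem neg_mem' {m : ℕ} (x : Sph m) :
    -x.1 ∈ Metric.sphere (0 : EuclideanSpace ℂ (Fin m)) 1 := by
  have := x.2
  rw [mem_sphere_zero_iff_norm] at this ⊢
  rwa [norm_neg]

/-- the antipodal map of the sphere -/
noncomputable def antipode {m : ℕ} (x : Sph m) : Sph m := ⟨-x.1, neg_mem' x⟩

/-- the action of `{1, -1}` given by an involution -/
noncomputable def invAct {S : Type} (f : S → S) (g : ℤˣ) (x : S) : S := if g = 1 then x else f x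

theorem invAct_one {S : Type} (f : S → S) (x : S) : invAct f 1 x = x := if_pos rfl

theorem invAct_mul {S : Type} {f : S → S} (hf : ∀ x, f (f x) = x) (g h : ℤˣ) (x : S) :
    invAct f (g * h) x = invAct f g (invAct f h x) := by
  rcases Int.units_eq_one_or g with rfl | rfl <;> rcases Int.units_eq_one_or h with rfl | rfl <;>
    simp [invAct, hf]

theorem reflection_reflection (z : Circ) : reflection (reflection z) = z :=
  Subtype.ext (Complex.conj_conj z.1)

theorem antipode_antipode {m : ℕ} (x : Sph m) : antipode (antipode x) = x :=
  Subtype.ext (neg_neg x.1)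

/-- `-1` acts on the circle by the reflection -/
noncomputable instance actCirc : MulAction ℤˣ Circ where
  smul := invAct reflection
  one_smul := invAct_one reflection
  mul_smul := invAct_mul reflection_reflection

/-- `-1` acts on the sphere by the antipodal map -/
noncomputable instance actSph (m : ℕ) : MulAction ℤˣ (Sph m) where
  smul := invAct antipode
  one_smul := invAct_one antipode
  mul_smul := invAct_mul antipode_antipode

theorem continuous_invAct {S : Type} [TopologicalSpace S] {f : S → S} (hf : Continuous f)
    (g : ℤˣ) : Continuous (invAct f g) := by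
  rcases Int.units_eq_one_or g with rfl | rfl
  · have : invAct f 1 = id := funext fun x => if_pos rfl
    rw [this]
    exact continuous_id
  · have : invAct f (-1) = f := funext fun x => if_neg (by decide)
    rw [this]
    exact hf

theorem continuous_reflection : Continuous reflection :=
  (Complex.continuous_conj.comp continuous_subtype_val).subtype_mk _

theorem continuous_antipode {m : ℕ} : Continuous (antipode (m := m)) :=
  (continuous_neg.comp continuous_subtype_val).subtype_mk _

instance contCirc : ContinuousConstSMul ℤˣ Circ := ⟨continuous_invAct continuous_reflection⟩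

instance contSph (m : ℕ) : ContinuousConstSMul ℤˣ (Sph m) := ⟨continuous_invAct continuous_antipode⟩

end Pool.Agent.Q171.ETC
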