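import Pool.Agent.Q171.ETC.TC
import Pool.Agent.Q171.ETC.Cyc
import Pool.Agent.Q171.ETC.Spaces

/-!
# Proof of the two bounds for `S¹ × S^{2m-1}`
-/

set_option autoImplicit false

namespace Pool.Agent.Q171.ETC

theorem neg_smul_circ (z : Circ) : (((-1 : ℤˣ) • z : Circ)).1 = (starRingEnd ℂ) z.1 :=
  congrArg Subtype.val (if_neg (by decide) : invAct reflection (-1) z = reflection z)

theorem neg_smul_sph {m : ℕ} (x : Sph m) : (((-1 : ℤˣ) • x : Sph m)).1 = -x.1 :=
  congrArg Subtype.val (if_neg (by decide) : invAct antipode (-1) x = antipode x)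

theorem smul_circ (g : ℤˣ) (z : Circ) : (g • z : Circ).1 = cj g z.1 := by
  rcases Int.units_eq_one_or g with rfl | rfl
  · rw [one_smul, cj_one]
  · rw [neg_smul_circ, cj_neg_one]

theorem smul_sph {m : ℕ} (g : ℤˣ) (x : Sph m) : (g • x : Sph m).1 = sr g • x.1 := by
  rcases Int.units_eq_one_or g with rfl | rfl
  · rw [one_smul]
    simp [sr]
  · rw [neg_smul_sph]
    simp [sr]

theorem norm_circ (z : Circ) : ‖z.1‖ = 1 := mem_sphere_zero_iff_norm.mp z.2

/-- The bound for the fixed point sets. -/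
theorem TCle_fixed (m : ℕ) (K : Subgroup ℤˣ) :
    TCle {x : Circ × Sph m // ∀ g ∈ K, g • x = x} 3 := by
  by_cases hK : (-1 : ℤˣ) ∈ K
  · have : IsEmpty {x : Circ × Sph m // ∀ g ∈ K, g • x = x} := by
      refine ⟨fun x => ?_⟩
      have h1 := congrArg Prod.snd (x.2 (-1) hK)
      change (-1 : ℤˣ) • x.1.2 = x.1.2 at h1
      have h2 := congrArg Subtype.val h1
      rw [neg_smul_sph] at h2
      have h3 : ‖x.1.2.1‖ = 1 := mem_sphere_zero_iff_norm.mp x.1.2.2
      have h4 : (2 : ℝ) • x.1.2.1 = 0 := by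
        rw [two_smul]
        nth_rewrite 1 [← h2]
        exact neg_add_cancel _
      have h5 := congrArg norm h4
      rw [norm_smul, h3, norm_zero] at h5
      norm_num at h5
    exact TCle_of_isEmpty 3
  · have hall : ∀ x : Circ × Sph m, ∀ g ∈ K, g • x = x := by
      intro x g hg
      rcases Int.units_eq_one_or g with rfl | rfl
      · exact one_smul _ x
      · exact absurd hg hK
    have h := TCle_prod ℂ (EuclideanSpace ℂ (Fin m))
    let e : (Metric.sphere (0 : ℂ) 1 × Metric.sphere (0 : EuclideanSpace ℂ (Fin m)) 1) ≃ₜ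
        {x : Circ × Sph m // ∀ g ∈ K, g • x = x} :=
      { toFun := fun x => ⟨x, hall x⟩
        invFun := fun x => x.1
        left_inv := fun _ => rfl
        right_inv := fun _ => rfl
        continuous_toFun := Continuous.subtype_mk continuous_id _
        continuous_invFun := continuous_subtype_val }
    exact TCle_of_homeo e h

/-- the function `(z, x, z', x') ↦ z z̄'` -/
noncomputable def cfun (m : ℕ) : C((Circ × Sph m) × (Circ × Sph m), ℂ) :=
  ⟨fun p => p.1.1.1 * (starRingEnd ℂ) p.2.1.1, by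
    refine Continuous.mul ?_ (Complex.continuous_conj.comp ?_)
    · exact continuous_subtype_val.comp (continuous_fst.comp continuous_fst)
    · exact continuous_subtype_val.comp (continuous_fst.comp continuous_snd)⟩

theorem cfun_apply (m : ℕ) (p : (Circ × Sph m) × (Circ × Sph m)) :
    cfun m p = p.1.1.1 * (starRingEnd ℂ) p.2.1.1 := rfl

theorem cfun_ne (m : ℕ) (p : (Circ × Sph m) × (Circ × Sph m)) : cfun m p ≠ 0 := by
  intro h
  have h1 := congrArg norm h
  rw [cfun_apply, norm_mul, Complex.norm_conj, norm_circ, norm_circ, norm_zero] at h1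
  norm_num at h1

theorem cfun_smul (m : ℕ) (g : ℤˣ) (p : (Circ × Sph m) × (Circ × Sph m)) :
    cfun m (g • p) = cj g (cfun m p) := by
  rw [cfun_apply, cfun_apply]
  change (g • p.1.1 : Circ).1 * (starRingEnd ℂ) (g • p.2.1 : Circ).1 = _
  rw [smul_circ, smul_circ]
  rcases Int.units_eq_one_or g with rfl | rfl
  · simp only [cj_one]
  · simp only [cj_neg_one, map_mul]

/-- the class `y` -/
noncomputable def yy (m : ℕ) : Z ℤˣ ((Circ × Sph m) × (Circ × Sph m)) 1 :=
  ycls (cfun_ne m) (cfun_smul m)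

theorem diag_yy (m : ℕ) : pullH (diag (Circ × Sph m)) (diag_equivariant (G := ℤˣ))
    (cls (yy m)) = 0 := by
  change cls (pullZ (diag (Circ × Sph m)) (diag_equivariant (G := ℤˣ)) (yy m)) = 0
  rw [cls_eq_zero]
  refine Or.inl ?_
  funext s
  change yc (cfun m) (mapS (diag (Circ × Sph m)) s) = 0
  refine yc_one fun t => ?_
  change (s.2 t).1.1 * (starRingEnd ℂ) (s.2 t).1.1 = 1
  rw [Complex.mul_conj, Complex.normSq_eq_norm_sq, norm_circ]
  norm_num

/-- the point `1` of the circle -/
def pt1 : Circ := ⟨1, by rw [mem_sphere_zero_iff_norm]; simp⟩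

/-- the point `-1` of the circle -/
def pt2 : Circ := ⟨-1, by rw [mem_sphere_zero_iff_norm]; simp⟩

theorem smul_pt1 (g : ℤˣ) : g • pt1 = pt1 := by
  apply Subtype.ext
  rw [smul_circ]
  exact cj_map_one g

theorem smul_pt2 (g : ℤˣ) : g • pt2 = pt2 := by
  apply Subtype.ext
  rw [smul_circ]
  exact cj_map_neg_one g

/-- the map `x ↦ ((1, x), (-1, x))` -/
def incl (m : ℕ) : C(Sph m, (Circ × Sph m) × (Circ × Sph m)) :=
  ⟨fun x => ((pt1, x), (pt2, x)), (continuous_const.prodMk continuous_id).prodMk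
    (continuous_const.prodMk continuous_id)⟩

theorem exists_indep (m d : ℕ) (h : d + 1 ≤ 2 * m) :
    ∃ v : Fin (d + 1) → EuclideanSpace ℂ (Fin m), LinearIndependent ℝ v := by
  have hf : Module.finrank ℝ (EuclideanSpace ℂ (Fin m)) = 2 * m := by
    rw [finrank_real_of_complex, finrank_euclideanSpace_fin]
  let b := Module.finBasis ℝ (EuclideanSpace ℂ (Fin m))
  have hle : d + 1 ≤ Module.finrank ℝ (EuclideanSpace ℂ (Fin m)) := by rw [hf]; exact h
  exact ⟨fun i => b (Fin.castLE hle i),
    b.linearIndependent.comp _ (Fin.castLE_injective hle)⟩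

/-- the simplices on the sphere -/
noncomputable def sphS {m d : ℕ} {v : Fin (d + 1) → EuclideanSpace ℂ (Fin m)}
    (hv : LinearIndependent ℝ v) (g : Fin (d + 1) → ℤˣ) :
    C(stdSimplex ℝ (Fin (d + 1)), Sph m) := sph hv g

theorem nilGE (m k : ℕ) (h : k + 1 ≤ 2 * m) : NilGE ℤˣ (Circ × Sph m) k := by
  refine ⟨List.replicate k ⟨1, cls (yy m)⟩, List.length_replicate, fun a ha => ?_, ?_⟩
  · rw [List.eq_of_mem_replicate ha]
    exact diag_yy m
  · rw [prodH_replicate]
    obtain ⟨v, hv⟩ := exists_indep m (powC (yy m) k).1 (by rw [powC_deg]; exact h)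
    refine cls_powC_ne (yy m) k (fun g => (incl m).comp (sphS hv g)) (fun g α => ?_)
      (fun n hn i g g' _ hg => ?_) (fun u g => ?_)
    · exact yc_neg_one (c := cfun m)
        (s := pull (g, (incl m).comp (sphS hv g)) α) fun t => by
        change (pt1.1 : ℂ) * (starRingEnd ℂ) pt2.1 = -1
        simp [pt1, pt2]
    · have e : (sphS hv g).comp (aff (face hn i)) = (sphS hv g').comp (aff (face hn i)) :=
        sph_face hv hn hg
      change ((incl m).comp (sphS hv g)).comp (aff (face hn i)) =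
        ((incl m).comp (sphS hv g')).comp (aff (face hn i))
      rw [ContinuousMap.comp_assoc, ContinuousMap.comp_assoc, e]
    · ext1 t
      have e : u • (sphS hv g t) = sphS hv (fun i => u * g i) t := by
        apply Subtype.ext
        rw [smul_sph]
        exact (sph_mul hv u g t).symm
      exact Prod.ext (Prod.ext (smul_pt1 u) e) (Prod.ext (smul_pt2 u) e)

end Pool.Agent.Q171.ETC
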