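import Mathlib

/-!
# Topological complexity and a bound for a product of two odd spheres
-/

set_option autoImplicit false

namespace Pool.Agent.Q171.ETC

open Metric

/-- `TC(Y) ≤ k` (reduced): `Y × Y` is covered by `k + 1` open sets, each with a continuous section
of the evaluation map `Y^[0,1] → Y × Y`. -/
def TCle (Y : Type) [TopologicalSpace Y] (k : ℕ) : Prop :=
  ∃ U : Fin (k + 1) → Set (Y × Y), (∀ i, IsOpen (U i)) ∧ (∀ p, ∃ i, p ∈ U i) ∧
    ∀ i, ∃ s : U i → C(unitInterval, Y), Continuous s ∧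
      ∀ p : U i, s p 0 = p.1.1 ∧ s p 1 = p.1.2

/-- the reduced topological complexity of Farber -/
noncomputable def TC (Y : Type) [TopologicalSpace Y] : ℕ∞ :=
  sInf {k : ℕ∞ | ∃ n : ℕ, k = n ∧ TCle Y n}

theorem TC_le {Y : Type} [TopologicalSpace Y] {k : ℕ} (h : TCle Y k) : TC Y ≤ k :=
  sInf_le ⟨k, rfl, h⟩

theorem TCle_of_homeo {Y Y' : Type} [TopologicalSpace Y] [TopologicalSpace Y'] (e : Y ≃ₜ Y')
    {k : ℕ} (h : TCle Y k) : TCle Y' k := by
  obtain ⟨U, hU, hc, hs⟩ := h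
  refine ⟨fun i => (fun p : Y' × Y' => (e.symm p.1, e.symm p.2)) ⁻¹' U i, fun i => ?_,
    fun p => hc _, fun i => ?_⟩
  · exact (hU i).preimage (by fun_prop)
  · obtain ⟨s, hs, hs'⟩ := hs i
    refine ⟨fun p => (⟨e, e.continuous⟩ : C(Y, Y')).comp (s ⟨_, p.2⟩), ?_, fun p => ?_⟩
    · exact (ContinuousMap.continuous_postcomp _).comp (hs.comp (by fun_prop))
    · have := hs' ⟨_, p.2⟩
      simp only [ContinuousMap.comp_apply, ContinuousMap.coe_mk]
      rw [this.1, this.2]
      simp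

theorem TCle_of_isEmpty {Y : Type} [TopologicalSpace Y] [IsEmpty Y] (k : ℕ) : TCle Y k :=
  ⟨fun _ => ∅, fun _ => isOpen_empty, fun p => isEmptyElim p.1, fun _ =>
    ⟨fun p => p.2.elim, continuous_of_const fun p => p.2.elim, fun p => p.2.elim⟩⟩

section Planner

variable {E : Type} [NormedAddCommGroup E] [NormedSpace ℂ E]

/-- the sign `1` or `-1` -/
def eps (j : Fin 2) : ℝ := if j = 0 then 1 else -1

theorem eps_mul (j : Fin 2) : eps j * eps j = 1 := by
  unfold eps; split_ifs <;> norm_num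

/-- the segment from `x` to `± y` -/
noncomputable def seg (j : Fin 2) (x y : E) (t : ℝ) : E := (1 - t) • x + (eps j * t) • y

theorem norm_eps_smul (j : Fin 2) (y : E) : ‖eps j • y‖ = ‖y‖ := by
  unfold eps; split_ifs <;> simp

theorem seg_ne {j : Fin 2} {x y : E} (hx : ‖x‖ = 1) (hy : ‖y‖ = 1) (h : eps j • y ≠ -x) {t : ℝ}
    (h0 : 0 ≤ t) (h1 : t ≤ 1) : seg j x y t ≠ 0 := by
  intro h'
  unfold seg at h'
  have e1 : (1 - t) • x = -(t • (eps j • y)) := by
    rw [smul_smul, mul_comm t]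
    exact eq_neg_of_add_eq_zero_left h'
  have e2 : ‖(1 - t) • x‖ = 1 - t := by
    rw [norm_smul, hx, mul_one, Real.norm_of_nonneg (by linarith)]
  have e3 : ‖-(t • (eps j • y))‖ = t := by
    rw [norm_neg, norm_smul, norm_eps_smul, hy, mul_one, Real.norm_of_nonneg h0]
  rw [e1, e3] at e2
  have ht : t = 1 / 2 := by linarith
  subst ht
  apply h
  have e4 : (1 / 2 : ℝ) • x = (1 / 2 : ℝ) • (-(eps j • y)) := by
    rw [smul_neg, ← e1]
    norm_num
  have e5 := smul_right_injective E (show (1 / 2 : ℝ) ≠ 0 by norm_num) e4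
  rw [e5, neg_neg]

/-- the angle of the rotation -/
noncomputable def ang (j : Fin 2) : ℝ := if j = 0 then 0 else Real.pi

theorem exp_ang (j : Fin 2) : Complex.exp ((ang j : ℝ) * Complex.I) = eps j := by
  unfold ang eps
  split_ifs
  · simp
  · simp [Complex.exp_pi_mul_I]

/-- the motion planner on the set `x ≠ ∓ y` -/
noncomputable def plan (j : Fin 2) (x y : E) (t : ℝ) : E :=
  Complex.exp ((ang j * t : ℝ) * Complex.I) • (‖seg j x y t‖⁻¹ • seg j x y t)

theorem norm_plan {j : Fin 2} {x y : E} (hx : ‖x‖ = 1) (hy : ‖y‖ = 1) (h : eps j • y ≠ -x) {t : ℝ}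
    (h0 : 0 ≤ t) (h1 : t ≤ 1) : ‖plan j x y t‖ = 1 := by
  unfold plan
  rw [norm_smul, Complex.norm_exp_ofReal_mul_I, one_mul, norm_smul, norm_inv, norm_norm]
  exact inv_mul_cancel₀ (norm_ne_zero_iff.mpr (seg_ne hx hy h h0 h1))

theorem plan_zero {j : Fin 2} {x y : E} (hx : ‖x‖ = 1) : plan j x y 0 = x := by
  simp [plan, seg, hx]

theorem plan_one {j : Fin 2} {x y : E} (hy : ‖y‖ = 1) : plan j x y 1 = y := by
  unfold plan seg
  rw [mul_one, exp_ang, sub_self, zero_smul, zero_add, mul_one, norm_eps_smul, hy, inv_one,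
    one_smul, Complex.coe_smul, smul_smul, eps_mul, one_smul]

/-- the domain of the planner -/
def dom (E : Type) [NormedAddCommGroup E] [NormedSpace ℂ E] (j : Fin 2) :
    Set (sphere (0 : E) 1 × sphere (0 : E) 1) := {p | eps j • (p.2 : E) ≠ -(p.1 : E)}

theorem isOpen_dom (j : Fin 2) : IsOpen (dom E j) := by
  have h : IsClosed {p : sphere (0 : E) 1 × sphere (0 : E) 1 | eps j • (p.2 : E) = -(p.1 : E)} :=
    isClosed_eq (by fun_prop) (by fun_prop)
  exact h.isOpen_compl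

theorem dom_cover (p : sphere (0 : E) 1 × sphere (0 : E) 1) : ∃ j, p ∈ dom E j := by
  by_contra h
  push Not at h
  have h0 := h 0
  have h1 := h 1
  simp only [dom, Set.mem_ofPred_eq, ne_eq, not_not, eps] at h0 h1
  norm_num at h0 h1
  have hp := p.1.2
  rw [mem_sphere_zero_iff_norm] at hp
  have h2 : (2 : ℝ) • (p.1 : E) = 0 := by
    rw [two_smul]
    nth_rewrite 1 [← h1]
    rw [h0, neg_add_cancel]
  have h3 := congrArg norm h2
  rw [norm_smul, hp, norm_zero] at h3
  norm_num at h3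

theorem continuousOn_plan (j : Fin 2) :
    Continuous fun q : dom E j × unitInterval =>
      plan j (q.1.1.1 : E) (q.1.1.2 : E) (q.2 : ℝ) := by
  unfold plan
  have hs : Continuous fun q : dom E j × unitInterval =>
      seg j (q.1.1.1 : E) (q.1.1.2 : E) (q.2 : ℝ) := by
    unfold seg
    fun_prop
  have hne : ∀ q : dom E j × unitInterval, ‖seg j (q.1.1.1 : E) (q.1.1.2 : E) (q.2 : ℝ)‖ ≠ 0 :=
    fun q => norm_ne_zero_iff.mpr (seg_ne (mem_sphere_zero_iff_norm.mp q.1.1.1.2)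
      (mem_sphere_zero_iff_norm.mp q.1.1.2.2) q.1.2 q.2.2.1 q.2.2.2)
  have hi := (hs.norm.inv₀ hne).smul hs
  refine Continuous.smul ?_ hi
  fun_prop

/-- the planner as a map into the sphere -/
noncomputable def planS (j : Fin 2) (q : dom E j × unitInterval) : sphere (0 : E) 1 :=
  ⟨plan j (q.1.1.1 : E) (q.1.1.2 : E) (q.2 : ℝ), by
    rw [mem_sphere_zero_iff_norm]
    exact norm_plan (mem_sphere_zero_iff_norm.mp q.1.1.1.2)
      (mem_sphere_zero_iff_norm.mp q.1.1.2.2) q.1.2 q.2.2.1 q.2.2.2⟩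

theorem continuous_planS (j : Fin 2) : Continuous (planS (E := E) j) :=
  (continuousOn_plan j).subtype_mk _

end Planner

/-- `TC(S(E) × S(F)) ≤ 3` for complex normed spaces `E` and `F` -/
theorem TCle_prod (E F : Type) [NormedAddCommGroup E] [NormedSpace ℂ E] [NormedAddCommGroup F]
    [NormedSpace ℂ F] : TCle (sphere (0 : E) 1 × sphere (0 : F) 1) 3 := by
  let e : Fin (3 + 1) ≃ Fin 2 × Fin 2 := (finProdFinEquiv (m := 2) (n := 2)).symm
  refine ⟨fun i => {p | (p.1.1, p.2.1) ∈ dom E (e i).1 ∧ (p.1.2, p.2.2) ∈ dom F (e i).2},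
    fun i => ?_, fun p => ?_, fun i => ?_⟩
  · exact ((isOpen_dom _).preimage (by fun_prop)).inter ((isOpen_dom _).preimage (by fun_prop))
  · obtain ⟨j, hj⟩ := dom_cover (p.1.1, p.2.1)
    obtain ⟨k, hk⟩ := dom_cover (p.1.2, p.2.2)
    refine ⟨e.symm (j, k), ?_⟩
    simp only [Equiv.apply_symm_apply]
    exact ⟨hj, hk⟩
  · let W := {p : (sphere (0 : E) 1 × sphere (0 : F) 1) × (sphere (0 : E) 1 × sphere (0 : F) 1) |
      (p.1.1, p.2.1) ∈ dom E (e i).1 ∧ (p.1.2, p.2.2) ∈ dom F (e i).2}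
    let f : C(W × unitInterval, sphere (0 : E) 1 × sphere (0 : F) 1) :=
      ⟨fun q => (planS (e i).1 (⟨_, q.1.2.1⟩, q.2), planS (e i).2 (⟨_, q.1.2.2⟩, q.2)), by
        refine ((continuous_planS _).comp ?_).prodMk ((continuous_planS _).comp ?_)
        · refine Continuous.prodMk (Continuous.subtype_mk (by fun_prop) _) (by fun_prop)
        · refine Continuous.prodMk (Continuous.subtype_mk (by fun_prop) _) (by fun_prop)⟩
    refine ⟨f.curry, f.curry.continuous, fun p => ⟨?_, ?_⟩⟩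
    · refine Prod.ext (Subtype.ext ?_) (Subtype.ext ?_)
      · exact plan_zero (mem_sphere_zero_iff_norm.mp p.1.1.1.2)
      · exact plan_zero (mem_sphere_zero_iff_norm.mp p.1.1.2.2)
    · refine Prod.ext (Subtype.ext ?_) (Subtype.ext ?_)
      · exact plan_one (mem_sphere_zero_iff_norm.mp p.1.2.1.2)
      · exact plan_one (mem_sphere_zero_iff_norm.mp p.1.2.2.2)

end Pool.Agent.Q171.ETC
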